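import Pool.Agent.H75.SQ.Basic

/-!
# Quantum statistical algorithms for satisfiability: row DIA
-/

set_option autoImplicit false

open Finset Matrix

namespace Pool.Agent.H27.SQ.DIA

open Pool.Agent.H75.SQ

section

variable {γ : Type} [Fintype γ] [DecidableEq γ] {m q : ℕ}

theorem qf_dm (h : (Fin q → γ) → ℝ) (a : (Fin q → Fin m × γ) → ℂ) :
    qf (dm h : Matrix (Fin q → Fin m × γ) (Fin q → Fin m × γ) ℂ) a =
      ∑ s, h (fun i => (s i).2) * ‖a s‖ ^ 2 := by
  unfold qf dm
  rw [dotProduct, Complex.re_sum]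
  refine Finset.sum_congr rfl fun s _ => ?_
  rw [Matrix.mulVec_diagonal, Pi.star_apply]
  have e : star (a s) * (((h fun i => (s i).2 : ℝ) : ℂ) * a s) =
      ((h (fun i => (s i).2) * ‖a s‖ ^ 2 : ℝ) : ℂ) := by
    have e1 : star (a s) * a s = ((‖a s‖ ^ 2 : ℝ) : ℂ) := by
      have := Complex.conj_mul' (a s)
      rw [Complex.ofReal_pow]
      exact this
    rw [Complex.ofReal_mul, ← e1]
    ring
  rw [e, Complex.ofReal_re]

omit [Fintype γ] in
theorem norm_fs (hm : 0 < m) (F : Fin m → γ) (x : Fin m × γ) :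
    ‖fs F x‖ ^ 2 = if F x.1 = x.2 then 1 / (m : ℝ) else 0 := by
  unfold fs
  by_cases h : F x.1 = x.2
  · rw [if_pos h, if_pos h, Complex.norm_real, Real.norm_eq_abs, sq_abs, div_pow, one_pow,
      Real.sq_sqrt (by positivity)]
  · rw [if_neg h, if_neg h]
    simp

theorem ex_dm (hm : 0 < m) (h : (Fin q → γ) → ℝ) (F : Fin m → γ) :
    ex F (dm h : Matrix (Fin q → Fin m × γ) (Fin q → Fin m × γ) ℂ) =
      (∑ j : Fin q → Fin m, h (fun i => F (j i))) / m ^ q := by
  unfold ex
  rw [qf_dm]
  have h1 : ∀ s : Fin q → Fin m × γ, ‖fq q F s‖ ^ 2 =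
      if (fun i => (s i).2) = (fun i => F (s i).1) then 1 / (m : ℝ) ^ q else 0 := by
    intro s
    unfold fq
    rw [norm_prod, ← Finset.prod_pow]
    simp only [norm_fs hm]
    by_cases hs : (fun i => (s i).2) = (fun i => F (s i).1)
    · rw [if_pos hs]
      rw [Finset.prod_congr rfl fun i _ => if_pos (congrFun hs i).symm]
      rw [Finset.prod_const, Finset.card_univ, Fintype.card_fin, one_div, one_div, inv_pow]
    · rw [if_neg hs]
      obtain ⟨i, hi⟩ : ∃ i, (s i).2 ≠ F (s i).1 := by
        by_contra hc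
        push Not at hc
        exact hs (funext hc)
      exact Finset.prod_eq_zero (Finset.mem_univ i) (if_neg fun hc => hi hc.symm)
  simp only [h1]
  rw [← (Equiv.arrowProdEquivProdArrow (Fin q) (fun _ => Fin m) (fun _ => γ)).symm.sum_comp,
    Fintype.sum_prod_type, Finset.sum_div]
  refine Finset.sum_congr rfl fun j _ => ?_
  have h2 : ∀ A : Fin q → γ,
      h (fun i => ((Equiv.arrowProdEquivProdArrow (Fin q) (fun _ => Fin m)
        (fun _ => γ)).symm (j, A) i).2) *
      (if (fun i => ((Equiv.arrowProdEquivProdArrow (Fin q) (fun _ => Fin m)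
        (fun _ => γ)).symm (j, A) i).2) = (fun i => F ((Equiv.arrowProdEquivProdArrow (Fin q)
          (fun _ => Fin m) (fun _ => γ)).symm (j, A) i).1) then 1 / (m : ℝ) ^ q else 0) =
      if A = (fun i => F (j i)) then h A * (1 / (m : ℝ) ^ q) else 0 := by
    intro A
    show h A * (if A = (fun i => F (j i)) then 1 / (m : ℝ) ^ q else 0) = _
    rw [mul_ite, mul_zero]
  rw [Finset.sum_congr rfl fun A _ => h2 A, Finset.sum_ite_eq' Finset.univ,
    if_pos (Finset.mem_univ _)]
  ring

theorem obs_dm (h : (Fin q → γ) → ℝ) (hh : ∀ A, |h A| ≤ 1) :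
    Obs (dm h : Matrix (Fin q → Fin m × γ) (Fin q → Fin m × γ) ℂ) := by
  constructor
  · unfold dm
    rw [Matrix.IsHermitian, Matrix.diagonal_conjTranspose]
    congr 1
    funext s
    rw [Pi.star_apply]
    exact Complex.conj_ofReal _
  · intro a
    rw [qf_dm]
    refine le_trans (Finset.abs_sum_le_sum_abs _ _) (Finset.sum_le_sum fun s _ => ?_)
    rw [abs_mul, abs_of_nonneg (by positivity : (0 : ℝ) ≤ ‖a s‖ ^ 2)]
    have := hh (fun i => (s i).2)
    have h2 : (0 : ℝ) ≤ ‖a s‖ ^ 2 := by positivity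
    nlinarith

omit [DecidableEq γ] in
theorem obs_zero : Obs (0 : Matrix (Fin q → Fin m × γ) (Fin q → Fin m × γ) ℂ) := by
  constructor
  · exact Matrix.isHermitian_zero
  · intro a
    unfold qf
    rw [Matrix.zero_mulVec, dotProduct_zero]
    simp only [Complex.zero_re, abs_zero]
    exact Finset.sum_nonneg fun s _ => by positivity

end

theorem pf_DIA (hNRM : T_NRM) : T_DIA := by
  intro γ _ _ m q h hm hh
  refine ⟨obs_dm h hh, fun F => ex_dm hm h F, ?_⟩
  intro w hw h0
  classical
  have hC : Nonempty γ := by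
    by_contra hc
    rw [not_nonempty_iff] at hc
    have := hw.2
    rw [Finset.univ_eq_empty, Finset.sum_empty] at this
    norm_num at this
  obtain ⟨C⟩ := hC
  have hN := (hNRM γ m q (fun _ => C) w 0 hm obs_zero).2.2.2.2.1
  have hmu0 : 0 ≤ mu w q h := EF_nonneg w hw.1 q h h0
  have hmq : (0 : ℝ) < (m : ℝ) ^ q := by positivity
  have e1 : EF w m (fun F =>
      ex F (dm h : Matrix (Fin q → Fin m × γ) (Fin q → Fin m × γ) ℂ)) =
      (∑ j : Fin q → Fin m, EF w m (fun F => h (fun i => F (j i)))) / m ^ q := by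
    rw [← EF_sum]
    have e2 : ∀ F : Fin m → γ,
        ex F (dm h : Matrix (Fin q → Fin m × γ) (Fin q → Fin m × γ) ℂ) =
        (1 / (m : ℝ) ^ q) * ∑ j : Fin q → Fin m, h (fun i => F (j i)) := by
      intro F
      rw [ex_dm hm h F]
      ring
    simp only [e2]
    rw [EF_mul]
    ring
  rw [e1]
  set J : Finset (Fin q → Fin m) := Finset.univ.filter fun j => Function.Injective j with hJ
  have hcard : ({j : Fin q → Fin m | Function.Injective j}.ncard : ℝ) = (J.card : ℝ) := by
    rw [← Set.ncard_coe_finset]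
    congr 2
    ext j
    simp [hJ]
  rw [hcard] at hN
  have hb : ∀ j : Fin q → Fin m, EF w m (fun F => h (fun i => F (j i))) ≤
      if Function.Injective j then mu w q h else 1 := by
    intro j
    by_cases hj : Function.Injective j
    · rw [if_pos hj]
      exact le_of_eq (EF_inj w hw m q j hj h)
    · rw [if_neg hj]
      exact (abs_le.1 (EF_abs_le w hw m _ 1 fun F => hh _)).2
  have hs : ∑ j : Fin q → Fin m, EF w m (fun F => h (fun i => F (j i))) ≤
      (J.card : ℝ) * mu w q h + ((m : ℝ) ^ q - J.card) := by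
    refine le_trans (Finset.sum_le_sum fun j _ => hb j) ?_
    rw [Finset.sum_ite, Finset.sum_const, Finset.sum_const, nsmul_eq_mul, nsmul_eq_mul, mul_one]
    have hc := Finset.card_filter_add_card_filter_not (s := (Finset.univ : Finset (Fin q → Fin m)))
      (fun j => Function.Injective j)
    rw [Finset.card_univ] at hc
    have hc2 : Fintype.card (Fin q → Fin m) = m ^ q := by simp
    rw [hc2] at hc
    have hc' : ((J.card : ℝ)) + ((Finset.univ.filter fun j : Fin q → Fin m =>
        ¬ Function.Injective j).card : ℝ) = (m : ℝ) ^ q := by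
      rw [hJ]
      exact_mod_cast hc
    linarith
  have hJle : (J.card : ℝ) ≤ (m : ℝ) ^ q := by
    have h1 : J.card ≤ Fintype.card (Fin q → Fin m) := Finset.card_le_univ _
    have hc2 : Fintype.card (Fin q → Fin m) = m ^ q := by simp
    rw [hc2] at h1
    exact_mod_cast h1
  rw [div_le_iff₀ hmq]
  refine le_trans hs ?_
  have h3 : ((1 : ℝ) - q ^ 2 / (2 * m)) * (m : ℝ) ^ q ≤ J.card := by
    rwa [le_div_iff₀ hmq] at hN
  nlinarith

end Pool.Agent.H27.SQ.DIA
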