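import Pool.Agent.H47.SQ.Targets2
import Pool.Agent.H47.PL.FN2

set_option autoImplicit false

namespace Pool.Agent.H27.SQP

open Finset Pool.Agent.H97.RK Pool.Agent.H41.SS Pool.Agent.H47.SR
open Pool.Agent.H47.PL (Sat Agr Con dm nsol Os card_all card_dist markov_uni)
open Pool.Agent.H47.SQ (Derivation Refuted Find success sav guess AlmostAll)

open Classical in
private theorem markov {α : Type} [Fintype α] (p : α → Prop) (f : α → ℝ) (hf : ∀ a, 0 ≤ f a)
    (N : ℝ) : ((univ.filter fun a => p a ∧ N < f a).card : ℝ) * N ≤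
      ∑ a ∈ univ.filter fun a => p a, f a := by
  calc ((univ.filter fun a => p a ∧ N < f a).card : ℝ) * N
      = ∑ _a ∈ univ.filter (fun a => p a ∧ N < f a), N := by rw [sum_const, nsmul_eq_mul]
    _ ≤ ∑ a ∈ univ.filter (fun a => p a ∧ N < f a), f a :=
        sum_le_sum fun a ha => (mem_filter.1 ha).2.2.le
    _ ≤ _ := sum_le_sum_of_subset_of_nonneg (fun a ha => by
        rw [mem_filter] at ha ⊢
        exact ⟨ha.1, ha.2.1⟩) (fun a _ _ => hf a)

open Classical in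
private theorem half {α : Type} [Fintype α] (p g : α → Prop) (f0 : α → ℝ) (f : ℕ → α → ℝ)
    (Nh : ℝ) (I h : ℕ) (n T : ℝ) (hT : 0 ≤ T)
    (hg : ∀ a, ¬ g a → Nh < f0 a ∨ ∃ i, i ≤ I ∧ Nh < f i a)
    (h0 : ((univ.filter fun a => p a ∧ Nh < f0 a).card : ℝ) * 2 ^ h ≤ T)
    (hi : ∀ i, i ≤ I → ((univ.filter fun a => p a ∧ Nh < f i a).card : ℝ) *
      (2 ^ h * 2 ^ (i + 1)) ≤ T) (hn : 2 * n ≤ 2 ^ h) :
    n * (Nat.card {a // p a ∧ ¬ g a} : ℝ) ≤ T := by
  have h1 : Nat.card {a // p a ∧ ¬ g a} = (univ.filter fun a => p a ∧ ¬ g a).card := by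
    rw [Nat.card_eq_fintype_card, Fintype.card_subtype]
  have h2 : (univ.filter fun a => p a ∧ ¬ g a) ⊆
      (univ.filter fun a => p a ∧ Nh < f0 a) ∪
        (range (I + 1)).biUnion fun i => univ.filter fun a => p a ∧ Nh < f i a := by
    intro a ha
    rw [mem_filter] at ha
    rw [mem_union, mem_biUnion]
    rcases hg a ha.2.2 with h3 | ⟨i, hi', h3⟩
    · left
      rw [mem_filter]
      exact ⟨mem_univ _, ha.2.1, h3⟩
    · right
      refine ⟨i, mem_range.2 (by omega), ?_⟩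
      rw [mem_filter]
      exact ⟨mem_univ _, ha.2.1, h3⟩
  have h3 : (Nat.card {a // p a ∧ ¬ g a} : ℝ) ≤
      ((univ.filter fun a => p a ∧ Nh < f0 a).card : ℝ) +
      ∑ i ∈ range (I + 1), ((univ.filter fun a => p a ∧ Nh < f i a).card : ℝ) := by
    rw [h1]
    have h4 := (card_le_card h2).trans ((card_union_le _ _).trans
      (Nat.add_le_add_left card_biUnion_le _))
    exact_mod_cast h4
  have hp : (0 : ℝ) < 2 ^ h := by positivity
  have h5 : ∑ i ∈ range (I + 1), ((univ.filter fun a => p a ∧ Nh < f i a).card : ℝ) * 2 ^ h ≤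
      T * ∑ i ∈ range (I + 1), (1 / 2 : ℝ) ^ (i + 1) := by
    rw [mul_sum]
    refine sum_le_sum fun i hi' => ?_
    have h6 := hi i (by have := mem_range.1 hi'; omega)
    have h7 : (1 / 2 : ℝ) ^ (i + 1) * 2 ^ (i + 1) = 1 := by
      rw [← mul_pow]
      norm_num
    have h8 : (0 : ℝ) ≤ (1 / 2 : ℝ) ^ (i + 1) := by positivity
    calc ((univ.filter fun a => p a ∧ Nh < f i a).card : ℝ) * 2 ^ h
        = ((univ.filter fun a => p a ∧ Nh < f i a).card : ℝ) * (2 ^ h * 2 ^ (i + 1)) *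
          (1 / 2 : ℝ) ^ (i + 1) := by
          linear_combination -((univ.filter fun a => p a ∧ Nh < f i a).card : ℝ) * 2 ^ h * h7
      _ ≤ T * (1 / 2 : ℝ) ^ (i + 1) := mul_le_mul_of_nonneg_right h6 h8
  have h6 : ∑ i ∈ range (I + 1), (1 / 2 : ℝ) ^ (i + 1) ≤ 1 := by
    have h7 : ∀ J : ℕ, ∑ i ∈ range J, (1 / 2 : ℝ) ^ (i + 1) = 1 - (1 / 2 : ℝ) ^ J := by
      intro J
      induction J with
      | zero => simp
      | succ J ih =>
        rw [sum_range_succ, ih]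
        ring
    rw [h7]
    have : (0 : ℝ) ≤ (1 / 2 : ℝ) ^ (I + 1) := by positivity
    linarith
  have h7 : (Nat.card {a // p a ∧ ¬ g a} : ℝ) * 2 ^ h ≤ 2 * T := by
    calc (Nat.card {a // p a ∧ ¬ g a} : ℝ) * 2 ^ h
        ≤ (((univ.filter fun a => p a ∧ Nh < f0 a).card : ℝ) +
          ∑ i ∈ range (I + 1), ((univ.filter fun a => p a ∧ Nh < f i a).card : ℝ)) * 2 ^ h :=
          mul_le_mul_of_nonneg_right h3 hp.le
      _ = ((univ.filter fun a => p a ∧ Nh < f0 a).card : ℝ) * 2 ^ h +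
          ∑ i ∈ range (I + 1), ((univ.filter fun a => p a ∧ Nh < f i a).card : ℝ) * 2 ^ h := by
          rw [add_mul, sum_mul]
      _ ≤ T + T * 1 := add_le_add h0 (h5.trans (mul_le_mul_of_nonneg_left h6 hT))
      _ = 2 * T := by ring
  have h8 : (0 : ℝ) ≤ (Nat.card {a // p a ∧ ¬ g a} : ℝ) := Nat.cast_nonneg _
  nlinarith

private theorem num_log (k n : ℕ) (hk : 2 ≤ k) (hkn : k ≤ n) :
    Real.log n ≤ 2 * (Real.log k / k * n) := by
  have hk0 : (0 : ℝ) < k := by exact_mod_cast (by omega : 0 < k)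
  have hn0 : (0 : ℝ) < n := by exact_mod_cast (by omega : 0 < n)
  have hx : (1 : ℝ) ≤ n / k := by
    rw [le_div_iff₀ hk0, one_mul]
    exact_mod_cast hkn
  have h1 : Real.log n = Real.log k + Real.log (n / k) := by
    rw [Real.log_div hn0.ne' hk0.ne']
    ring
  have h2 : Real.log (n / k) ≤ n / k - 1 := Real.log_le_sub_one_of_pos (by positivity)
  have h3 : (1 / 2 : ℝ) ≤ Real.log k := by
    have h4 := Real.log_two_gt_d9
    have h5 : Real.log 2 ≤ Real.log k := Real.log_le_log (by norm_num) (by exact_mod_cast hk)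
    linarith
  have h4 : Real.log k / k * n = Real.log k * (n / k) := by ring
  rw [h4, h1]
  nlinarith

private theorem num_h (k n m t₀ : ℕ) (hk : 2 ≤ k) (hkn : k ≤ n) (ht₀ : 1 ≤ t₀)
    (hsav : 2 ^ 20 * sav n k m * n ≤ t₀) : 2 * (n : ℝ) ≤ 2 ^ (2 ^ 21 * t₀) := by
  have hk0 : (0 : ℝ) < k := by exact_mod_cast (by omega : 0 < k)
  have hn0 : (0 : ℝ) < n := by exact_mod_cast (by omega : 0 < n)
  have ht : (1 : ℝ) ≤ t₀ := by exact_mod_cast ht₀
  have h1 : Real.log k / k ≤ sav n k m := by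
    unfold sav
    refine div_le_div_of_nonneg_right (Real.log_le_log hk0 ?_) hk0.le
    have : (0 : ℝ) ≤ m / (2 ^ k * n) := by positivity
    nlinarith
  have h2 := num_log k n hk hkn
  have h3 : Real.log n ≤ t₀ := by
    have h4 : Real.log k / k * n ≤ sav n k m * n := mul_le_mul_of_nonneg_right h1 hn0.le
    have h5 : 0 ≤ Real.log k / k * n := by
      have : 0 ≤ Real.log k := Real.log_natCast_nonneg k
      positivity
    nlinarith
  have h4 : (n : ℝ) ≤ Real.exp t₀ := by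
    rw [← Real.exp_log hn0]
    exact Real.exp_le_exp.2 h3
  have h5 : (2 : ℝ) ≤ Real.exp t₀ := by
    have := Real.add_one_le_exp (t₀ : ℝ)
    linarith
  have h6 : Real.exp (2 * t₀) ≤ (2 : ℝ) ^ (2 ^ 21 * t₀) := by
    have h7 : (2 : ℝ) ^ (2 ^ 21 * t₀) = Real.exp ((2 ^ 21 * t₀ : ℕ) * Real.log 2) := by
      rw [← Real.rpow_natCast, Real.rpow_def_of_pos (by norm_num), mul_comm (Real.log 2)]
    rw [h7]
    apply Real.exp_le_exp.2
    push_cast
    have h8 := Real.log_two_gt_d9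
    nlinarith
  calc 2 * (n : ℝ) ≤ Real.exp t₀ * Real.exp t₀ :=
        mul_le_mul h5 h4 hn0.le (Real.exp_pos _).le
    _ = Real.exp (2 * t₀) := by rw [← Real.exp_add]; ring_nf
    _ ≤ _ := h6

theorem pf_GOE (hEXV : T_EXV) (hEXQ : T_EXQ) (hPLS : Pool.Agent.H47.PL.T_PLS) (hNSS : T_NSS)
    (hNUF : T_NUF) (hOSC : Pool.Agent.H47.PL.T_OSC) : T_GOE := by
  classical
  intro k n m t₀ hk hkn ht₀ hsav hI₀
  obtain ⟨I, hId⟩ : ∃ I : ℕ, I = n / 2 ^ 22 - t₀ := ⟨_, rfl⟩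
  obtain ⟨N0, hN0⟩ : ∃ N0 : ℝ, N0 = 2 ^ n * guess n k m := ⟨_, rfl⟩
  obtain ⟨M, hMd⟩ : ∃ M : ℕ, M = (2 ^ k - 1) * n.descFactorial k := ⟨_, rfl⟩
  have hM : ∀ τ, (Os n k τ).card = M := fun τ => by rw [hMd]; exact (hOSC n k τ τ).1
  have hk2 : 2 ≤ 2 ^ k := by
    calc 2 = 2 ^ 1 := (pow_one 2).symm
      _ ≤ 2 ^ k := Nat.pow_le_pow_right (by norm_num) (by omega)
  have hMR : (M : ℝ) = ((2 : ℝ) ^ k - 1) * (n.descFactorial k : ℝ) := by
    rw [hMd, Nat.cast_mul, Nat.cast_sub (by omega)]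
    push_cast
    ring
  obtain ⟨P, hPd⟩ : ∃ P : ℝ, P = ((univ.filter fun p : Fml n k m × (Fin n → Bool) =>
    Dist p.1 ∧ Sat p.1 p.2).card : ℝ) := ⟨_, rfl⟩
  have hP : P = 2 ^ n * (M : ℝ) ^ m := by
    rw [hPd, card_all M hM]
    push_cast
    rfl
  obtain ⟨D, hDd⟩ : ∃ D : ℝ, D = ((univ.filter fun F : Fml n k m => Dist F).card : ℝ) := ⟨_, rfl⟩
  have hD : D = (2 ^ k * (n.descFactorial k : ℝ)) ^ m := by
    rw [hDd, card_dist _ (fun F => by rw [mem_filter]; simp), card_Om]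
    push_cast
    rfl
  have hN0' : N0 = 1 + 2 ^ n * (1 - (1 / 2 : ℝ) ^ k) ^ m := by
    rw [hN0]
    unfold guess
    rw [mul_add, ← mul_pow]
    norm_num
  have hhalf : (0 : ℝ) ≤ 1 - (1 / 2 : ℝ) ^ k := by
    have := pow_le_one₀ (n := k) (by norm_num : (0 : ℝ) ≤ 1 / 2) (by norm_num)
    linarith
  have hN01 : 1 ≤ N0 := by
    rw [hN0']
    have : (0 : ℝ) ≤ 2 ^ n * (1 - (1 / 2 : ℝ) ^ k) ^ m := by positivity
    linarith
  have hN00 : 0 < N0 := by linarith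
  have hP0 : 0 ≤ P := by rw [hPd]; exact Nat.cast_nonneg _
  have hD0 : 0 ≤ D := by rw [hDd]; exact Nat.cast_nonneg _
  have hPD : P ≤ N0 * D := by
    have h1 : P = 2 ^ n * (1 - (1 / 2 : ℝ) ^ k) ^ m * D := by
      rw [hP, hD, mul_assoc, ← mul_pow, hMR]
      congr 2
      have h2 : (1 / 2 : ℝ) ^ k * 2 ^ k = 1 := by
        rw [← mul_pow]
        norm_num
      linear_combination (n.descFactorial k : ℝ) * h2
    rw [h1, hN0']
    nlinarith
  obtain ⟨h, hh⟩ : ∃ h : ℕ, h = 2 ^ 21 * t₀ := ⟨_, rfl⟩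
  obtain ⟨Nh, hNh⟩ : ∃ Nh : ℝ, Nh = 2 ^ (2 ^ 22 * t₀) * (2 ^ n * guess n k m) := ⟨_, rfl⟩
  have hNh' : Nh = 2 ^ h * 2 ^ h * N0 := by
    rw [hNh, ← hN0, ← pow_add, hh]
    congr 2
    ring
  have hNh0 : 0 < Nh := by
    rw [hNh']
    positivity
  have h2n : 2 * (n : ℝ) ≤ 2 ^ h := by
    rw [hh]
    exact num_h k n m t₀ hk hkn ht₀ hsav
  -- the sum over the distances
  obtain ⟨S, hS⟩ : ∃ S : ℝ, S = 2 ^ n * ∑ w ∈ range (n + 1), (n.choose w : ℝ) *
        ((2 ^ k - 2) * (n.descFactorial k : ℝ) + ((n - w).descFactorial k : ℝ)) ^ m := ⟨_, rfl⟩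
  have hSP : S ≤ 2 ^ h * (N0 * P) := by
    have h1 := hNSS k n m hk hkn
    have h2 : (2 : ℝ) ^ (2 ^ 27 * sav n k m * n) ≤ 2 ^ h := by
      rw [← Real.rpow_natCast 2 h]
      refine Real.rpow_le_rpow_of_exponent_le (by norm_num) ?_
      rw [hh]
      push_cast
      nlinarith
    rw [← hMR, ← hN0] at h1
    have h3 : (0 : ℝ) ≤ N0 * (M : ℝ) ^ m := by positivity
    rw [hS, hP]
    calc _ ≤ 2 ^ n * ((2 : ℝ) ^ (2 ^ 27 * sav n k m * n) * N0 * (M : ℝ) ^ m) :=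
          mul_le_mul_of_nonneg_left h1 (by positivity)
      _ = (2 : ℝ) ^ (2 ^ 27 * sav n k m * n) * (2 ^ n * (N0 * (M : ℝ) ^ m)) := by ring
      _ ≤ 2 ^ h * (2 ^ n * (N0 * (M : ℝ) ^ m)) := mul_le_mul_of_nonneg_right h2 (by positivity)
      _ = _ := by ring
  have hti : ∀ i, i ≤ I → 2 ^ 22 * (t₀ + i) ≤ n := by
    intro i hi
    omega
  have hti1 : ∀ i : ℕ, t₀ ≤ t₀ + i := fun i => Nat.le_add_right _ _
  have hX : ∀ i, i ≤ I → ∃ X : ℝ, X * 2 ^ (7 * (2 ^ 22 * (t₀ + i))) ≤ 1 ∧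
      (∑ F ∈ univ.filter fun F : Fml n k m => Dist F, (badr F (t₀ + i) (2 ^ 22 * (t₀ + i) + 4 * (t₀ + i) + 1) : ℝ)) ≤ X * P ∧
      (∑ p ∈ univ.filter fun p : Fml n k m × (Fin n → Bool) => Dist p.1 ∧ Sat p.1 p.2,
        (badr p.1 (t₀ + i) (2 ^ 22 * (t₀ + i) + 4 * (t₀ + i) + 1) : ℝ)) ≤ X * S := by
    intro i hi
    have h1 := hti i hi
    have h2 := hti1 i
    refine ⟨bl n (2 ^ 22 * (t₀ + i) + 4 * (t₀ + i) + 1) *
      prb n k m (t₀ + i) (128 * (t₀ + i)) (12 * (t₀ + i)), ?_, ?_, ?_⟩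
    · refine hNUF k n m (t₀ + i) hk hkn (by omega) (hsav.trans ?_) h1
      exact_mod_cast h2
    · rw [hPd]
      exact hEXV n k m (t₀ + i) _ (by omega) hkn (by omega)
    · rw [hS]
      exact hEXQ n k m (t₀ + i) _ hk hkn (by omega)
  have hexp : ∀ i : ℕ, (2 : ℝ) ^ (i + 1) ≤ 2 ^ (2 * (2 ^ 22 * (t₀ + i))) := by
    intro i
    refine pow_le_pow_right₀ (by norm_num) ?_
    omega
  have hh1 : (1 : ℝ) ≤ 2 ^ h := one_le_pow₀ (by norm_num)
  refine ⟨{F | (nsol F : ℝ) ≤ Nh ∧ ∀ i, i ≤ I →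
    (badr F (t₀ + i) (2 ^ 22 * (t₀ + i) + 4 * (t₀ + i) + 1) : ℝ) * 2 ^ (5 * (2 ^ 22 * (t₀ + i))) ≤ Nh}, ⟨?_, ?_⟩,
    fun F hF => ?_⟩
  · -- uniform
    have h1 := half (fun F : Fml n k m => Dist F) (fun F => (nsol F : ℝ) ≤ Nh ∧ ∀ i, i ≤ I →
      (badr F (t₀ + i) (2 ^ 22 * (t₀ + i) + 4 * (t₀ + i) + 1) : ℝ) * 2 ^ (5 * (2 ^ 22 * (t₀ + i))) ≤ Nh)
      (fun F => (nsol F : ℝ))
      (fun i F => (badr F (t₀ + i) (2 ^ 22 * (t₀ + i) + 4 * (t₀ + i) + 1) : ℝ) * 2 ^ (5 * (2 ^ 22 * (t₀ + i))))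
      Nh I h n D hD0 ?_ ?_ ?_ h2n
    · have h2 : (Nat.card {F : Fml n k m // Dist F} : ℝ) = D := by
        rw [hDd, Nat.card_eq_fintype_card, Fintype.card_subtype]
      rw [← h2] at h1
      exact h1
    · intro F hF
      by_contra hcon
      push Not at hcon
      exact hF ⟨hcon.1, hcon.2⟩
    · have h2 := markov_uni (k := k) (m := m) M hM Nh
      rw [← hP] at h2
      have h3 : ((univ.filter fun F : Fml n k m => Dist F ∧ Nh < (nsol F : ℝ)).card : ℝ) *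
          (2 ^ h * 2 ^ h * N0) ≤ N0 * D := by
        rw [← hNh']
        exact h2.trans hPD
      have h4 : ((univ.filter fun F : Fml n k m => Dist F ∧ Nh < (nsol F : ℝ)).card : ℝ) *
          (2 ^ h * 2 ^ h) ≤ D := by
        refine le_of_mul_le_mul_right ?_ hN00
        linarith
      refine le_trans (mul_le_mul_of_nonneg_left ?_ (Nat.cast_nonneg _)) h4
      nlinarith
    · intro i hi
      obtain ⟨X, hX1, hX2, -⟩ := hX i hi
      obtain ⟨w, hw⟩ : ∃ w : ℕ, w = 2 ^ 22 * (t₀ + i) + 4 * (t₀ + i) + 1 := ⟨_, rfl⟩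
      rw [← hw] at hX2
      obtain ⟨u, hu⟩ : ∃ u : ℕ, u = 2 ^ 22 * (t₀ + i) := ⟨_, rfl⟩
      have h2 := markov (fun F : Fml n k m => Dist F)
        (fun F => (badr F (t₀ + i) w : ℝ) * 2 ^ (5 * (2 ^ 22 * (t₀ + i))))
        (fun F => by positivity) Nh
      rw [← sum_mul] at h2
      have h3 := hexp i
      rw [← hu] at h2 h3 hX1
      obtain ⟨c, hc⟩ : ∃ c : ℝ, c = ((univ.filter fun F : Fml n k m => Dist F ∧
        Nh < (badr F (t₀ + i) w : ℝ) * 2 ^ (5 * u)).card : ℝ) := ⟨_, rfl⟩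
      have hc0 : 0 ≤ c := by rw [hc]; exact Nat.cast_nonneg _
      have hgoal : c * (2 ^ h * 2 ^ (i + 1)) ≤ D := by
        rw [← hc] at h2
        have h4 : c * Nh * 2 ^ (2 * u) ≤ N0 * D := by
          calc c * Nh * 2 ^ (2 * u) ≤ X * P * 2 ^ (5 * u) * 2 ^ (2 * u) := by
                refine mul_le_mul_of_nonneg_right (h2.trans ?_) (by positivity)
                exact mul_le_mul_of_nonneg_right hX2 (by positivity)
            _ = X * 2 ^ (7 * u) * P := by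
                rw [show 7 * u = 5 * u + 2 * u by ring, pow_add]
                ring
            _ ≤ 1 * P := mul_le_mul_of_nonneg_right hX1 hP0
            _ ≤ N0 * D := by rw [one_mul]; exact hPD
        have h5 : c * (2 ^ h * 2 ^ h * 2 ^ (2 * u)) ≤ D := by
          refine le_of_mul_le_mul_right ?_ hN00
          rw [hNh'] at h4
          linarith
        refine le_trans (mul_le_mul_of_nonneg_left ?_ hc0) h5
        have h6 : (0 : ℝ) ≤ 2 ^ (i + 1) := by positivity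
        have h7 : (2 : ℝ) ^ h ≤ 2 ^ h * 2 ^ h := by nlinarith
        exact mul_le_mul h7 h3 h6 (by positivity)
      rw [hc, hu, hw] at hgoal
      exact hgoal
  · -- planted
    have h1 := half (fun p : Fml n k m × (Fin n → Bool) => Dist p.1 ∧ Sat p.1 p.2)
      (fun p => (nsol p.1 : ℝ) ≤ Nh ∧ ∀ i, i ≤ I →
      (badr p.1 (t₀ + i) (2 ^ 22 * (t₀ + i) + 4 * (t₀ + i) + 1) : ℝ) * 2 ^ (5 * (2 ^ 22 * (t₀ + i))) ≤ Nh)
      (fun p => (nsol p.1 : ℝ))
      (fun i p => (badr p.1 (t₀ + i) (2 ^ 22 * (t₀ + i) + 4 * (t₀ + i) + 1) : ℝ) * 2 ^ (5 * (2 ^ 22 * (t₀ + i))))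
      Nh I h n P hP0 ?_ ?_ ?_ h2n
    · have h2 : (Nat.card {p : Fml n k m × (Fin n → Bool) // Dist p.1 ∧ Sat p.1 p.2} : ℝ) =
          P := by
        rw [hPd, Nat.card_eq_fintype_card, Fintype.card_subtype]
      rw [← h2] at h1
      refine le_trans (le_of_eq ?_) h1
      congr 2
      refine Nat.card_congr (Equiv.subtypeEquivRight fun p => ?_)
      exact (and_assoc).symm
    · intro p hp
      by_contra hcon
      push Not at hcon
      exact hp ⟨hcon.1, hcon.2⟩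
    · have h2 := hPLS n k m Nh hNh0
      rw [← hS] at h2
      obtain ⟨c, hc⟩ : ∃ c : ℝ, c = ((univ.filter fun p : Fml n k m × (Fin n → Bool) =>
        (Dist p.1 ∧ Sat p.1 p.2) ∧ Nh < (nsol p.1 : ℝ)).card : ℝ) := ⟨_, rfl⟩
      have hc' : ((univ.filter fun p : Fml n k m × (Fin n → Bool) =>
        Dist p.1 ∧ Sat p.1 p.2 ∧ Nh < (nsol p.1 : ℝ)).card : ℝ) = c := by
        rw [hc]
        congr 2
        ext p
        rw [mem_filter, mem_filter, and_assoc]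
      rw [hc'] at h2
      have h3 : c * (2 ^ h * 2 ^ h * N0) ≤ 2 ^ h * (N0 * P) := by
        rw [← hNh']
        exact h2.trans hSP
      have hp : (0 : ℝ) < 2 ^ h * N0 := by positivity
      have hgoal : ∀ c' : ℝ, c' = c → c' * 2 ^ h ≤ P := by
        intro c' hcc
        rw [hcc]
        refine le_of_mul_le_mul_right ?_ hp
        linarith
      refine hgoal _ ?_
      rw [hc]
      exact congrArg Nat.cast (Pool.Agent.H47.PL.cfi fun _ => Iff.rfl)
    · intro i hi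
      obtain ⟨X, hX1, -, hX2⟩ := hX i hi
      obtain ⟨w, hw⟩ : ∃ w : ℕ, w = 2 ^ 22 * (t₀ + i) + 4 * (t₀ + i) + 1 := ⟨_, rfl⟩
      rw [← hw] at hX2
      obtain ⟨u, hu⟩ : ∃ u : ℕ, u = 2 ^ 22 * (t₀ + i) := ⟨_, rfl⟩
      have h2 := markov (fun p : Fml n k m × (Fin n → Bool) => Dist p.1 ∧ Sat p.1 p.2)
        (fun p => (badr p.1 (t₀ + i) w : ℝ) * 2 ^ (5 * (2 ^ 22 * (t₀ + i))))
        (fun p => by positivity) Nh
      rw [← sum_mul] at h2
      have h3 := hexp i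
      rw [← hu] at h2 h3 hX1
      obtain ⟨c, hc⟩ : ∃ c : ℝ, c = ((univ.filter fun p : Fml n k m × (Fin n → Bool) =>
        (Dist p.1 ∧ Sat p.1 p.2) ∧
        Nh < (badr p.1 (t₀ + i) w : ℝ) * 2 ^ (5 * u)).card : ℝ) := ⟨_, rfl⟩
      have hc0 : 0 ≤ c := by rw [hc]; exact Nat.cast_nonneg _
      have h2 : c * Nh ≤ (∑ p ∈ univ.filter fun p : Fml n k m × (Fin n → Bool) =>
          Dist p.1 ∧ Sat p.1 p.2, (badr p.1 (t₀ + i) w : ℝ)) * 2 ^ (5 * u) := by
        have e1 : ∀ c' : ℝ, c' * Nh ≤ (∑ p ∈ univ.filter fun p : Fml n k m × (Fin n → Bool) =>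
            Dist p.1 ∧ Sat p.1 p.2, (badr p.1 (t₀ + i) w : ℝ)) * 2 ^ (5 * u) → c = c' →
            c * Nh ≤ (∑ p ∈ univ.filter fun p : Fml n k m × (Fin n → Bool) =>
            Dist p.1 ∧ Sat p.1 p.2, (badr p.1 (t₀ + i) w : ℝ)) * 2 ^ (5 * u) := by
          intro c' h6 h7
          rw [h7]
          exact h6
        refine e1 _ (h2.trans (le_of_eq ?_)) ?_
        · congr 1
          refine Finset.sum_congr ?_ fun _ _ => rfl
          exact Finset.filter_congr_decidable _ _ _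
        · rw [hc]
          exact congrArg Nat.cast (Pool.Agent.H47.PL.cfi fun _ => Iff.rfl)
      have hgoal : c * (2 ^ h * 2 ^ (i + 1)) ≤ P := by
        have hSn : 0 ≤ S := by
          rw [hS]
          refine mul_nonneg (by positivity) (sum_nonneg fun w _ => ?_)
          have : (2 : ℝ) ≤ 2 ^ k := by exact_mod_cast hk2
          have h9 : (0 : ℝ) ≤ 2 ^ k - 2 := by linarith
          positivity
        have h4 : c * Nh * 2 ^ (2 * u) ≤ 2 ^ h * (N0 * P) := by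
          calc c * Nh * 2 ^ (2 * u) ≤ X * S * 2 ^ (5 * u) * 2 ^ (2 * u) := by
                refine mul_le_mul_of_nonneg_right (h2.trans ?_) (by positivity)
                exact mul_le_mul_of_nonneg_right hX2 (by positivity)
            _ = X * 2 ^ (7 * u) * S := by
                rw [show 7 * u = 5 * u + 2 * u by ring, pow_add]
                ring
            _ ≤ 1 * S := mul_le_mul_of_nonneg_right hX1 hSn
            _ ≤ 2 ^ h * (N0 * P) := by rw [one_mul]; exact hSP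
        have h5 : c * (2 ^ h * 2 ^ (2 * u)) ≤ P := by
          have hp : (0 : ℝ) < 2 ^ h * N0 := by positivity
          refine le_of_mul_le_mul_right ?_ hp
          rw [hNh'] at h4
          linarith
        refine le_trans (mul_le_mul_of_nonneg_left ?_ hc0) h5
        exact mul_le_mul_of_nonneg_left h3 (by positivity)
      have hgoal' : ∀ c' : ℝ, c' = c → c' * (2 ^ h * 2 ^ (i + 1)) ≤ P := by
        intro c' hcc
        rw [hcc]
        exact hgoal
      refine hgoal' _ ?_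
      rw [hc, hu, hw]
      exact congrArg Nat.cast (Pool.Agent.H47.PL.cfi fun _ => Iff.rfl)
  · rw [← hNh]
    refine ⟨hF.1, fun t ht hn => ?_⟩
    have h1 := hF.2 (t - t₀) (by omega)
    rw [Nat.add_sub_cancel' ht] at h1
    exact h1

end Pool.Agent.H27.SQP
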