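import Pool.Agent.H75.SQ.Basic

/-!
# Quantum statistical algorithms for satisfiability: row UNS
-/

set_option autoImplicit false

open Finset Matrix

namespace Pool.Agent.H27.SQ.UNS

open Pool.Agent.H75.SQ

theorem EF_prod {γ : Type} [Fintype γ] [DecidableEq γ] (w : γ → ℝ) (m : ℕ) (g : γ → ℝ) :
    EF w m (fun F => ∏ j, g (F j)) = (∑ C, w C * g C) ^ m := by
  unfold EF
  have h := Finset.prod_univ_sum (fun _ : Fin m => (Finset.univ : Finset γ))
    (fun _ C => w C * g C)
  rw [Fintype.piFinset_univ] at h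
  rw [Finset.prod_const, Finset.card_univ, Fintype.card_fin] at h
  rw [h]
  exact Finset.sum_congr rfl fun F _ => by rw [Finset.prod_mul_distrib]

theorem sum_false {n k : ℕ} (hn : 0 < n) (z : Fin n → Bool) :
    ∑ C : Cl n k, uc C * ∏ i, (if z (C i).1 = (C i).2 then (0 : ℝ) else 1) = (1 / 2) ^ k := by
  have hn' : (n : ℝ) ≠ 0 := by positivity
  have h := Finset.prod_univ_sum (fun _ : Fin k => (Finset.univ : Finset (Fin n × Bool)))
    (fun _ x => 1 / (2 * (n : ℝ)) * (if z x.1 = x.2 then (0 : ℝ) else 1))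
  rw [Fintype.piFinset_univ] at h
  rw [Finset.prod_const, Finset.card_univ, Fintype.card_fin] at h
  have e : ∑ x : Fin n × Bool, 1 / (2 * (n : ℝ)) * (if z x.1 = x.2 then (0 : ℝ) else 1) =
      1 / 2 := by
    rw [Fintype.sum_prod_type]
    have e2 : ∀ x : Fin n, ∑ b : Bool, 1 / (2 * (n : ℝ)) * (if z x = b then (0 : ℝ) else 1) =
        1 / (2 * (n : ℝ)) := by
      intro x
      rw [Fintype.sum_bool]
      cases z x <;> simp
    simp only [e2]
    rw [Finset.sum_const, Finset.card_univ, Fintype.card_fin, nsmul_eq_mul]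
    field_simp
  rw [e] at h
  rw [h]
  refine Finset.sum_congr rfl fun C _ => ?_
  rw [Finset.prod_mul_distrib, Finset.prod_const, Finset.card_univ, Fintype.card_fin]
  unfold uc
  rw [one_div, one_div, inv_pow]

theorem Pw_uc {n k : ℕ} (hn : 0 < n) : ∑ C : Cl n k, (uc C : ℝ) = 1 := by
  have hn' : (n : ℝ) ≠ 0 := by positivity
  unfold uc
  rw [Finset.sum_const, Finset.card_univ]
  simp only [Fintype.card_fun, Fintype.card_prod, Fintype.card_fin, Fintype.card_bool,
    nsmul_eq_mul, Nat.cast_pow, Nat.cast_mul, Nat.cast_ofNat]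
  rw [mul_comm (n : ℝ) 2]
  field_simp

theorem mean {n k : ℕ} (hn : 0 < n) (z : Fin n → Bool) :
    ∑ C : Cl n k, uc C * ind (∃ i, pat z C i = true) = 1 - (1 / 2) ^ k := by
  have h1 : ∀ C : Cl n k, ind (∃ i, pat z C i = true) =
      1 - ∏ i, (if z (C i).1 = (C i).2 then (0 : ℝ) else 1) := by
    intro C
    by_cases h : ∃ i, pat z C i = true
    · rw [ind_true _ h]
      obtain ⟨i, hi⟩ := h
      have : z (C i).1 = (C i).2 := by
        unfold pat at hi
        exact beq_iff_eq.1 hi
      rw [Finset.prod_eq_zero (Finset.mem_univ i) (by rw [if_pos this])]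
      ring
    · rw [ind_false _ h]
      rw [Finset.prod_eq_one]
      · ring
      · intro i _
        rw [if_neg]
        intro hc
        exact h ⟨i, by unfold pat; exact beq_iff_eq.2 hc⟩
  simp only [h1, mul_sub, mul_one]
  rw [Finset.sum_sub_distrib, sum_false hn z, Pw_uc hn]

theorem pf_UNS : T_UNS := by
  intro n k m hn
  constructor
  · unfold Pun
    have h1 : ∀ F : Fin m → Cl n k, ind (Sat F) ≤
        ∑ z : Fin n → Bool, ∏ j, ind (∃ i, pat z (F j) i = true) := by
      intro F
      by_cases h : Sat F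
      · rw [ind_true _ h]
        obtain ⟨z, hz⟩ := h
        have h2 : ∏ j, ind (∃ i, pat z (F j) i = true) = 1 :=
          Finset.prod_eq_one fun j _ => ind_true _ (hz j)
        rw [← h2]
        exact Finset.single_le_sum
          (f := fun z : Fin n → Bool => ∏ j, ind (∃ i, pat z (F j) i = true))
          (fun z' _ => Finset.prod_nonneg fun j _ => ind_nonneg _) (Finset.mem_univ z)
      · rw [ind_false _ h]
        exact Finset.sum_nonneg fun z' _ => Finset.prod_nonneg fun j _ => ind_nonneg _
    have huc : ∀ C : Cl n k, 0 ≤ (uc C : ℝ) := by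
      intro C
      unfold uc
      positivity
    refine le_trans (EF_mono uc huc m _ _ h1) ?_
    rw [EF_sum]
    have h2 : ∀ z : Fin n → Bool,
        EF uc m (fun F : Fin m → Cl n k => ∏ j, ind (∃ i, pat z (F j) i = true)) ≤
          Real.exp (-(m / 2 ^ k)) := by
      intro z
      rw [EF_prod uc m (fun C : Cl n k => ind (∃ i, pat z C i = true)), mean hn z]
      have h3 : (1 : ℝ) - (1 / 2) ^ k ≤ Real.exp (-(1 / 2) ^ k) := by
        have := Real.add_one_le_exp (-(1 / 2 : ℝ) ^ k)
        linarith
      have h4 : (0 : ℝ) ≤ 1 - (1 / 2) ^ k := by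
        have : (1 / 2 : ℝ) ^ k ≤ 1 := pow_le_one₀ (by norm_num) (by norm_num)
        linarith
      refine le_trans (pow_le_pow_left₀ h4 h3 m) ?_
      rw [← Real.exp_nat_mul]
      rw [one_div, inv_pow]
      apply le_of_eq
      congr 1
      ring
    refine le_trans (Finset.sum_le_sum fun z _ => h2 z) ?_
    rw [Finset.sum_const, Finset.card_univ]
    simp only [Fintype.card_fun, Fintype.card_fin, Fintype.card_bool, nsmul_eq_mul, Nat.cast_pow,
      Nat.cast_ofNat]
    exact le_refl _
  · intro r Q hQ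
    unfold Ppl
    have h1 : ∀ z : Fin n → Bool, EF (pc Q z) m (fun F : Fin m → Cl n k => ind (¬ Sat F)) = 0 := by
      intro z
      unfold EF
      refine Finset.sum_eq_zero fun F _ => ?_
      show (∏ j, pc Q z (F j)) * ind (¬ Sat F) = 0
      by_cases h : Sat F
      · rw [ind_false _ (not_not.2 h), mul_zero]
      · have h2 : ∃ j, ∀ i, ¬ pat z (F j) i = true := by
          by_contra hc
          push Not at hc
          exact h ⟨z, hc⟩
        obtain ⟨j, hj⟩ := h2
        have h3 : pat z (F j) = fun _ => false := by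
          funext i
          exact Bool.eq_false_iff.2 (hj i)
        rw [Finset.prod_eq_zero (Finset.mem_univ j)
          (by unfold pc; rw [h3, hQ.sat, zero_div]), zero_mul]
    simp only [h1, Finset.sum_const_zero, zero_div]

end Pool.Agent.H27.SQ.UNS
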